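import Mathlib

set_option autoImplicit false
open MeasureTheory Filter Topology Complex Set Metric
open scoped Real Convolution

namespace Pool.Agent.H.MP_46692b_an

noncomputable def db (φ : ℂ → ℝ) (z : ℂ) : ℂ := (fderiv ℝ φ z 1 : ℝ) + I * (fderiv ℝ φ z I : ℝ)

theorem db_cont {φ : ℂ → ℝ} (h : ContDiff ℝ 1 φ) : Continuous (db φ) := by
  have := h.continuous_fderiv one_ne_zero
  unfold db
  fun_prop

theorem db_zero {φ : ℂ → ℝ} {z : ℂ} (h : z ∉ tsupport φ) : db φ z = 0 := by
  have : fderiv ℝ φ z = 0 := image_eq_zero_of_notMem_tsupport fun j => h (tsupport_fderiv_subset ℝ j)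
  simp [db, this]

theorem db_cpt {φ : ℂ → ℝ} (hc : HasCompactSupport φ) : HasCompactSupport (db φ) :=
  HasCompactSupport.intro hc fun _ h => db_zero h

theorem lin (L : ℂ →L[ℝ] ℝ) (v : ℂ) : L v = v.re * L 1 + v.im * L I := by
  conv_lhs => rw [show v = v.re • (1:ℂ) + v.im • I by simp]
  rw [map_add, map_smul, map_smul]; rfl

theorem polar_int {φ : ℂ → ℝ} (hc : HasCompactSupport φ) {A : ℝ × ℝ → ℝ} (cA : Continuous A)
    (hA : ∀ p : ℝ × ℝ, Complex.polarCoord.symm p ∉ tsupport φ → A p = 0) :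
    IntegrableOn A (Ioi (0:ℝ) ×ˢ Ioo (-π) π) (volume.prod volume) := by
  obtain ⟨R, hR⟩ := hc.isCompact.isBounded.subset_closedBall 0
  refine IntegrableOn.of_forall_sdiff_eq_zero (s := Icc 0 R ×ˢ Icc (-π) π)
    (cA.continuousOn.integrableOn_compact (isCompact_Icc.prod isCompact_Icc))
    (measurableSet_Ioi.prod measurableSet_Ioo) fun p hp => hA p fun j => hp.2 ⟨⟨hp.1.1.le, ?_⟩,
      Ioo_subset_Icc_self hp.1.2⟩
  have := hR j
  rw [mem_closedBall_zero_iff, Complex.norm_polarCoord_symm] at this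
  exact (le_abs_self _).trans this

theorem cp0 {φ : ℂ → ℝ} (h : ContDiff ℝ 1 φ) (hc : HasCompactSupport φ) :
    ∫ z, db φ z * z⁻¹ = -(2 * π * φ 0 : ℝ) := by
  have cd := h.continuous_fderiv one_ne_zero
  have df := h.differentiable one_ne_zero
  have p := Real.pi_pos
  obtain ⟨A, hA⟩ : ∃ A : ℝ × ℝ → ℝ, A = fun p => fderiv ℝ φ (p.1 * exp (p.2 * I)) (exp (p.2 * I)) := ⟨_, rfl⟩
  obtain ⟨B, hB⟩ : ∃ B : ℝ × ℝ → ℝ, B = fun p => fderiv ℝ φ (p.1 * exp (p.2 * I)) (exp (p.2 * I) * I) :=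
    ⟨_, rfl⟩
  have ps : ∀ p : ℝ × ℝ, Complex.polarCoord.symm p = p.1 * exp (p.2 * I) := fun p => by
    rw [Complex.polarCoord_symm_apply, exp_mul_I]; simp
  have z0 : ∀ p : ℝ × ℝ, Complex.polarCoord.symm p ∉ tsupport φ →
      fderiv ℝ φ (p.1 * exp (p.2 * I)) = 0 := fun p j => by
    rw [← ps]; exact image_eq_zero_of_notMem_tsupport fun k => j (tsupport_fderiv_subset ℝ k)
  have iA := polar_int hc (A := A) (by rw [hA]; fun_prop) fun p j => by simp [hA, z0 p j]
  have iB := polar_int hc (A := B) (by rw [hB]; fun_prop) fun p j => by simp [hB, z0 p j]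
  have e1 : ∫ p in Ioi (0:ℝ) ×ˢ Ioo (-π) π, A p ∂volume.prod volume = -(2 * π * φ 0) := by
    rw [← Measure.prod_restrict, integral_prod_symm _ (by rwa [Measure.prod_restrict])]
    have : ∀ θ : ℝ, ∫ r in Ioi (0:ℝ), A (r, θ) = -φ 0 := fun θ => by
      have c1 : ContDiff ℝ 1 fun r : ℝ => φ (r * exp (θ * I)) :=
        h.comp (ofRealCLM.contDiff.mul contDiff_const)
      have c2 : HasCompactSupport fun r : ℝ => φ (r * exp (θ * I)) := by
        obtain ⟨R, hR⟩ := hc.isCompact.isBounded.subset_closedBall 0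
        refine HasCompactSupport.intro (isCompact_closedBall 0 R) fun r hr =>
          image_eq_zero_of_notMem_tsupport fun j => hr ?_
        simpa using hR j
      have := c2.integral_Ioi_deriv_eq c1 0
      simp only [ofReal_zero, zero_mul] at this
      rw [← this]
      congr 1; ext r
      have := (df (r * exp (θ * I))).hasFDerivAt.comp_hasDerivAt r
        (((hasDerivAt_id (r:ℂ)).mul_const (exp (θ * I))).comp_ofReal)
      rw [one_mul] at this
      rw [hA]; exact this.deriv.symm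
    simp only [this]
    rw [setIntegral_const, Measure.real, Real.volume_Ioo, ENNReal.toReal_ofReal (by linarith), smul_eq_mul]
    ring
  have e2 : ∫ p in Ioi (0:ℝ) ×ˢ Ioo (-π) π, B p ∂volume.prod volume = 0 := by
    rw [setIntegral_prod _ iB]
    refine (setIntegral_congr_fun measurableSet_Ioi (g := fun _ => 0) fun r hr => ?_).trans (by simp)
    have hr : (0:ℝ) < r := hr
    have d : ∀ θ : ℝ, HasDerivAt (fun θ : ℝ => r⁻¹ * φ (r * exp (θ * I))) (B (r, θ)) θ := fun θ => by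
      have := ((df (r * exp (θ * I))).hasFDerivAt.comp_hasDerivAt θ
        ((((hasDerivAt_id (θ:ℂ)).mul_const I).cexp.const_mul (r:ℂ)).comp_ofReal)).const_mul r⁻¹
      refine this.congr_deriv ?_
      rw [hB, show (r:ℂ) * (cexp (id (θ:ℂ) * I) * (1 * I)) = r • (cexp (θ * I) * I) by simp, map_smul,
        smul_eq_mul, inv_mul_cancel_left₀ hr.ne']
    have := intervalIntegral.integral_eq_sub_of_hasDerivAt (a := -π) (b := π) (fun θ _ => d θ)
      (Continuous.intervalIntegrable (by rw [hB]; fun_prop) _ _)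
    rw [intervalIntegral.integral_of_le (by linarith), integral_Ioc_eq_integral_Ioo] at this
    beta_reduce
    rw [this]
    simp [exp_neg]
  have iA' : Integrable (fun p => (A p : ℂ)) _ := iA.ofReal
  have iB' : Integrable (fun p => (B p : ℂ)) _ := iB.ofReal
  rw [← Complex.integral_comp_polarCoord_symm, polarCoord_target, Measure.volume_eq_prod,
    setIntegral_congr_fun (measurableSet_Ioi.prod measurableSet_Ioo)
      (g := fun p => (A p : ℂ) + I * (B p : ℂ)) fun p hp => ?_,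
    integral_add iA' (iB'.const_mul I), integral_const_mul, integral_complex_ofReal,
    integral_complex_ofReal, e1, e2]
  · simp
  have hr : (0:ℝ) < p.1 := hp.1
  have hr' : (p.1 : ℂ) ≠ 0 := ofReal_ne_zero.2 hr.ne'
  beta_reduce
  rw [ps, hA, hB, db]
  beta_reduce
  generalize fderiv ℝ φ (p.1 * exp (p.2 * I)) = L
  rw [lin L (exp _), lin L (exp _ * I), real_smul]
  have ne := exp_ne_zero (p.2 * I)
  field_simp
  have s := Complex.sin_sq_add_cos_sq p.2
  simp only [mul_re, mul_im, I_re, I_im, mul_comm I (p.2 : ℂ), exp_ofReal_mul_I_re, exp_ofReal_mul_I_im]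
  rw [exp_mul_I]
  push_cast
  linear_combination (-(L 1 : ℂ) - I * L I) * s + ((L 1 : ℂ) * sin p.2 ^ 2 - L I * sin p.2 * cos p.2) * I_sq

theorem cp {φ : ℂ → ℝ} (h : ContDiff ℝ 1 φ) (hc : HasCompactSupport φ) (ζ : ℂ) :
    ∫ z, db φ z * (z - ζ)⁻¹ = -(2 * π * φ ζ : ℝ) := by
  have := cp0 (φ := fun z => φ (z + ζ)) (h.comp (contDiff_id.add contDiff_const))
    (hc.comp_homeomorph (Homeomorph.addRight ζ))
  rw [zero_add] at this
  rw [← this, ← integral_add_right_eq_self _ ζ]
  congr 1; ext z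
  simp only [db, fderiv_comp_add_right, add_sub_cancel_right]

theorem inv_loc : IntegrableOn (fun z : ℂ => ‖z⁻¹‖) (ball 0 1) :=
  (integrableOn_ball_of_norm_le_rpow (f := fun z : ℂ => z⁻¹) (C := 1) (α := 1) (by simp) (by simp)
    (.of_forall fun z => by simp [Real.rpow_neg_one]) measurable_inv.aestronglyMeasurable).norm

theorem prod_int (μ : Measure ℂ) [IsFiniteMeasure μ] {g : ℂ → ℂ} (mg : Measurable g) (ig : Integrable g)
    {M : ℝ} (hM : ∀ z, ‖g z‖ ≤ M) :
    Integrable (Function.uncurry fun z ζ => g z * (z - ζ)⁻¹) (volume.prod μ) := by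
  have M0 : 0 ≤ M := (norm_nonneg _).trans (hM 0)
  have ms : Measurable (Function.uncurry fun z ζ : ℂ => g z * (z - ζ)⁻¹) := by
    unfold Function.uncurry; fun_prop
  have i1 := (integrable_indicator_iff measurableSet_ball).2 inv_loc
  have i2 : ∀ ζ : ℂ, Integrable fun z => M * (ball (0:ℂ) 1).indicator (fun z : ℂ => ‖z⁻¹‖) (z - ζ) + ‖g z‖ :=
    fun ζ => ((i1.comp_sub_right ζ).const_mul M).add ig.norm
  have bd : ∀ ζ z : ℂ, ‖g z * (z - ζ)⁻¹‖ ≤ M * (ball (0:ℂ) 1).indicator (fun z : ℂ => ‖z⁻¹‖) (z - ζ) + ‖g z‖ :=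
    fun ζ z => by
    rw [norm_mul]
    by_cases k : z - ζ ∈ ball (0:ℂ) 1
    · rw [indicator_of_mem k]
      exact (mul_le_mul_of_nonneg_right (hM z) (norm_nonneg _)).trans (le_add_of_nonneg_right (norm_nonneg _))
    · rw [indicator_of_notMem k, mul_zero, zero_add]
      rw [mem_ball_zero_iff, not_lt] at k
      exact mul_le_of_le_one_right (norm_nonneg _) (by rw [norm_inv]; exact inv_le_one_of_one_le₀ k)
  have i3 : ∀ ζ : ℂ, Integrable fun z => g z * (z - ζ)⁻¹ := fun ζ =>
    (i2 ζ).mono' (Measurable.aestronglyMeasurable (by fun_prop)) (.of_forall (bd ζ))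
  refine (integrable_prod_iff' ms.aestronglyMeasurable).2 ⟨.of_forall i3, ?_⟩
  refine (integrable_const (M * (∫ z, (ball (0:ℂ) 1).indicator (fun z : ℂ => ‖z⁻¹‖) z) + ∫ z, ‖g z‖)).mono'
    ms.norm.stronglyMeasurable.integral_prod_left'.aestronglyMeasurable (.of_forall fun ζ => ?_)
  rw [Real.norm_of_nonneg (integral_nonneg fun _ => norm_nonneg _)]
  refine (integral_mono (i3 ζ).norm (i2 ζ) (bd ζ)).trans (le_of_eq ?_)
  rw [integral_add ((i1.comp_sub_right ζ).const_mul M) ig.norm, integral_const_mul,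
    integral_sub_right_eq_self ((ball (0:ℂ) 1).indicator fun z : ℂ => ‖z⁻¹‖) ζ]

noncomputable def CT (μ : Measure ℂ) (z : ℂ) : ℂ := ∫ ζ, (z - ζ)⁻¹ ∂μ

theorem CT_meas (μ : Measure ℂ) [IsFiniteMeasure μ] : Measurable (CT μ) :=
  (StronglyMeasurable.integral_prod_right (f := fun z ζ : ℂ => (z - ζ)⁻¹)
    (Measurable.stronglyMeasurable (by unfold Function.uncurry; fun_prop))).measurable

theorem weak (μ : Measure ℂ) [IsFiniteMeasure μ] {φ : ℂ → ℝ} (h : ContDiff ℝ 1 φ)
    (hc : HasCompactSupport φ) : Integrable (fun z => db φ z * CT μ z) ∧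
      ∫ z, db φ z * CT μ z = -(2 * π * ∫ ζ, φ ζ ∂μ : ℝ) := by
  obtain ⟨M, hM⟩ := (db_cont h).bounded_above_of_compact_support (db_cpt hc)
  have i := prod_int μ (db_cont h).measurable ((db_cont h).integrable_of_hasCompactSupport (db_cpt hc)) hM
  have e : ∀ z, db φ z * CT μ z = ∫ ζ, db φ z * (z - ζ)⁻¹ ∂μ := fun z => by
    rw [integral_const_mul, CT]
  simp only [e]
  refine ⟨i.integral_prod_left, ?_⟩
  rw [integral_integral_swap i]
  simp only [cp h hc]
  rw [integral_neg, integral_complex_ofReal, integral_const_mul]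

theorem cts {E : Type*} [NormedAddCommGroup E] [NormedSpace ℝ E] {u : ℂ → ℝ} {h : ℂ → E}
    (hu : Continuous u) (hh : ∀ x ∈ tsupport u, ContinuousAt h x) : Continuous fun x => u x • h x := by
  rw [continuous_iff_continuousAt]
  intro x
  by_cases hx : x ∈ tsupport u
  · exact hu.continuousAt.smul (hh x hx)
  · refine (continuousAt_const (y := (0 : E))).congr ?_
    filter_upwards [notMem_tsupport_iff_eventuallyEq.1 hx] with y hy
    simp [hy]

theorem integ {E : Type*} [NormedAddCommGroup E] [NormedSpace ℝ E] {u : ℂ → ℝ} {h : ℂ → E}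
    (hu : Continuous u) (hc : HasCompactSupport u) (hh : ∀ x ∈ tsupport u, ContinuousAt h x) :
    Integrable fun x => u x • h x :=
  (cts hu hh).integrable_of_hasCompactSupport hc.smul_right

theorem ibp {φ : ℂ → ℝ} (h : ContDiff ℝ 1 φ) (hc : HasCompactSupport φ) {ψ : ℂ → ℂ}
    (hψ : ∀ x ∈ tsupport φ, ContDiffAt ℝ 1 ψ x) : Integrable (fun z => db φ z * ψ z) ∧
      ∫ z, db φ z * ψ z = -∫ z, φ z • (fderiv ℝ ψ z 1 + I * fderiv ℝ ψ z I) := by
  have cd := h.continuous_fderiv one_ne_zero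
  have i1 : ∀ v, Integrable fun x => fderiv ℝ φ x v • ψ x := fun v =>
    integ (by fun_prop) (hc.fderiv_apply (𝕜 := ℝ) v) fun x hx =>
      (hψ x (tsupport_fderiv_apply_subset ℝ v hx)).continuousAt
  have i2 : ∀ v, Integrable fun x => φ x • fderiv ℝ ψ x v := fun v =>
    integ h.continuous hc fun x hx => ((hψ x hx).continuousAt_fderiv one_ne_zero).clm_apply continuousAt_const
  have k : ∀ v, ∫ x, φ x • fderiv ℝ ψ x v = -∫ x, fderiv ℝ φ x v • ψ x := fun v =>
    integral_smul_fderiv_eq_neg_fderiv_smul_of_integrable (i1 v) (i2 v)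
      (integ h.continuous hc fun x hx => (hψ x hx).continuousAt)
      (fun x _ => h.differentiable one_ne_zero x) fun x hx => (hψ x hx).differentiableAt one_ne_zero
  have e1 : ∀ z, db φ z * ψ z = fderiv ℝ φ z 1 • ψ z + I * fderiv ℝ φ z I • ψ z := fun z => by
    simp only [db, real_smul]; ring
  have e2 : ∀ z, φ z • (fderiv ℝ ψ z 1 + I * fderiv ℝ ψ z I) =
      φ z • fderiv ℝ ψ z 1 + I * φ z • fderiv ℝ ψ z I := fun z => by
    simp only [real_smul]; ring
  simp only [e1, e2]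
  refine ⟨(i1 1).add ((i1 I).const_mul I), ?_⟩
  rw [integral_add (i1 1) ((i1 I).const_mul I), integral_add (i2 1) ((i2 I).const_mul I),
    integral_const_mul, integral_const_mul, k, k]
  ring

theorem holo {φ : ℂ → ℝ} (h : ContDiff ℝ 1 φ) (hc : HasCompactSupport φ) {f : ℂ → ℂ}
    (hf : ∀ x ∈ tsupport φ, AnalyticAt ℂ f x) : Integrable (fun z => db φ z * f z) ∧
      ∫ z, db φ z * f z = 0 := by
  obtain ⟨a, b⟩ := ibp h hc (ψ := f) fun x hx => (hf x hx).contDiffAt.restrict_scalars ℝ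
  refine ⟨a, ?_⟩
  rw [b, neg_eq_zero]
  refine integral_eq_zero_of_ae (.of_forall fun z => ?_)
  by_cases k : z ∈ tsupport φ
  · have := ((hf z k).differentiableAt.hasDerivAt.hasFDerivAt.restrictScalars ℝ).fderiv
    simp only [this]
    simp
    linear_combination (φ z * deriv f z) * I_sq
  · simp [image_eq_zero_of_notMem_tsupport k]

theorem cderiv {E : Type*} [NormedAddCommGroup E] [NormedSpace ℝ E] [CompleteSpace E] {ψ : ℂ → ℝ}
    (s1 : ContDiff ℝ 1 ψ) (s2 : HasCompactSupport ψ) {w : ℂ → E} (iw : LocallyIntegrable w) (z v : ℂ) :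
    fderiv ℝ (ψ ⋆[ContinuousLinearMap.lsmul ℝ ℝ, volume] w) z v =
      -∫ y, fderiv ℝ (fun y => ψ (z - y)) y v • w y := by
  have d := s2.hasFDerivAt_convolution_right (ContinuousLinearMap.lsmul ℝ ℝ).flip iw s1 z
  rw [convolution_flip] at d
  rw [d.fderiv, convolution_precompR_apply _ iw (s2.fderiv ℝ)
    (s1.continuous_fderiv (by simp)), convolution_def, ← integral_neg]
  congr 1; ext y
  have k : fderiv ℝ (fun y => ψ (z - y)) y v = -fderiv ℝ ψ (z - y) v := by
    rw [show (fun y => ψ (z - y)) = ψ ∘ HSub.hSub z from rfl,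
      (((s1.differentiable (by simp)) (z - y)).hasFDerivAt.comp y ((hasFDerivAt_id y).const_sub z)).fderiv]
    simp
  simp [k]

end Pool.Agent.H.MP_46692b_an
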