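import Pool.Agent.H.MP_46692b_an.A

set_option autoImplicit false
open MeasureTheory Filter Topology Complex Set Metric
open scoped Real Convolution

namespace Pool.Agent.H.MP_46692b_an

theorem rp (n : ℕ) : (0:ℝ) < 1 / (n + 1) := by positivity

noncomputable def bb (n : ℕ) : ContDiffBump (0 : ℂ) :=
  ⟨1 / (n + 1) / 2, 1 / (n + 1), half_pos (rp n), half_lt_self (rp n)⟩

noncomputable def rho (n : ℕ) : ℂ → ℝ := (bb n).normed volume

noncomputable def cv {E : Type*} [NormedAddCommGroup E] [NormedSpace ℝ E] (n : ℕ) (w : ℂ → E) : ℂ → E :=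
  rho n ⋆[ContinuousLinearMap.lsmul ℝ ℝ, volume] w

theorem rho1 (n : ℕ) : ContDiff ℝ 1 (rho n) := (bb n).contDiff_normed
theorem rho2 (n : ℕ) : HasCompactSupport (rho n) := (bb n).hasCompactSupport_normed
theorem rho0 (n : ℕ) (z : ℂ) : 0 ≤ rho n z := (bb n).nonneg_normed z

theorem t1 (n : ℕ) (z : ℂ) : ContDiff ℝ 1 fun y => rho n (z - y) :=
  (rho1 n).comp (contDiff_const.sub contDiff_id)
theorem t2 (n : ℕ) (z : ℂ) : HasCompactSupport fun y => rho n (z - y) :=
  (rho2 n).comp_homeomorph (Homeomorph.subLeft z)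
theorem t3 (n : ℕ) (z : ℂ) : tsupport (fun y => rho n (z - y)) ⊆ closedBall z (1 / (n + 1)) := fun y hy => by
  have := tsupport_comp_subset_preimage (rho n) (f := fun y => z - y) (by fun_prop) hy
  rw [show tsupport (rho n) = closedBall 0 (1 / (n + 1)) from (bb n).tsupport_normed_eq] at this
  simpa [dist_eq_norm, norm_sub_rev] using this

theorem t4 {K W : Set ℂ} (hK : IsCompact K) (hW : IsOpen W) (h : K ⊆ W) :
    ∀ᶠ n : ℕ in atTop, ∀ z ∈ K, tsupport (fun y => rho n (z - y)) ⊆ W := by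
  obtain ⟨ε, e0, he⟩ := hK.exists_cthickening_subset_open hW h
  filter_upwards [(tendsto_one_div_add_atTop_nhds_zero_nat (𝕜 := ℝ)).eventually (ge_mem_nhds e0)] with n hn z hz
  exact (t3 n z).trans ((closedBall_subset_closedBall hn).trans
    ((closedBall_subset_cthickening hz ε).trans he))

theorem cv_ae {E : Type*} [NormedAddCommGroup E] [NormedSpace ℝ E] [CompleteSpace E] {w : ℂ → E}
    (iw : LocallyIntegrable w) : ∀ᵐ z, Tendsto (fun n => cv n w z) atTop (𝓝 (w z)) :=
  ContDiffBump.ae_convolution_tendsto_right_of_locallyIntegrable (φ := bb) (K := 2)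
    (tendsto_one_div_add_atTop_nhds_zero_nat (𝕜 := ℝ)) (.of_forall fun n => by simp only [bb]; linarith) iw

theorem cv_diff {E : Type*} [NormedAddCommGroup E] [NormedSpace ℝ E] [CompleteSpace E] {w : ℂ → E}
    (iw : LocallyIntegrable w) (n : ℕ) : ContDiff ℝ 1 (cv n w) :=
  (rho2 n).contDiff_convolution_left _ (rho1 n) iw

theorem cv_pos {w : ℂ → ℂ} (iw : Integrable w) (L : ℂ →L[ℝ] ℝ) (h : ∀ z, 0 ≤ L (w z)) (n : ℕ) (z : ℂ) :
    0 ≤ L (cv n w z) := by
  obtain ⟨M, hM⟩ := (t1 n z).continuous.bounded_above_of_compact_support (t2 n z)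
  have i : Integrable fun t => rho n (z - t) • w t :=
    iw.bdd_smul M (t1 n z).continuous.aestronglyMeasurable (.of_forall hM)
  rw [cv, convolution_eq_swap]
  simp only [ContinuousLinearMap.lsmul_apply]
  rw [← L.integral_comp_comm i]
  exact integral_nonneg fun t => by
    simp only [map_smul, smul_eq_mul]; exact mul_nonneg (rho0 _ _) (h t)

theorem cv_db {w : ℂ → ℂ} (iw : Integrable w) (n : ℕ) (z : ℂ) :
    fderiv ℝ (cv n w) z 1 + I * fderiv ℝ (cv n w) z I = -∫ y, db (fun y => rho n (z - y)) y * w y := by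
  have i : ∀ v, Integrable fun y => fderiv ℝ (fun y => rho n (z - y)) y v • w y := fun v => by
    have c : Continuous fun y => fderiv ℝ (fun y => rho n (z - y)) y v :=
      ((t1 n z).continuous_fderiv one_ne_zero).clm_apply continuous_const
    obtain ⟨M, hM⟩ := c.bounded_above_of_compact_support ((t2 n z).fderiv_apply (𝕜 := ℝ) v)
    exact iw.bdd_smul M c.aestronglyMeasurable (.of_forall hM)
  rw [cv, cderiv (rho1 n) (rho2 n) iw.locallyIntegrable, cderiv (rho1 n) (rho2 n) iw.locallyIntegrable,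
    mul_neg, ← neg_add, ← integral_const_mul, ← integral_add (i 1) ((i I).const_mul I)]
  congr 2; ext y
  simp only [db, real_smul]; ring

theorem log_bd (a b : ℝ) (ha : 0 < a) : ∃ B, ∀ w : ℂ, a ≤ w.re → ‖w‖ ≤ b → ‖log w‖ ≤ B := by
  have k : IsCompact (closedBall (0:ℂ) b ∩ {w | a ≤ w.re}) :=
    (isCompact_closedBall _ _).inter_right (isClosed_le continuous_const continuous_re)
  obtain ⟨B, hB⟩ := k.exists_bound_of_continuousOn (f := log) fun w hw =>
    (continuousAt_clog (.inl (ha.trans_le hw.2))).continuousWithinAt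
  exact ⟨B, fun w h1 h2 => hB w ⟨mem_closedBall_zero_iff.2 h2, h1⟩⟩

theorem step1 {h : ℂ → ℂ} (ih : Integrable h) {W : Set ℂ} {c e : ℂ}
    (h1 : ∀ z, 0 ≤ (h z).re) (h2 : ∀ z, 0 ≤ (e * c).re * (h z).re + (e * c).im * (h z).im)
    (h3 : 0 ≤ (e * c).re)
    (H : ∀ φ : ℂ → ℝ, ContDiff ℝ 1 φ → HasCompactSupport φ → (∀ z, 0 ≤ φ z) → tsupport φ ⊆ W →
      ∃ ν : ℝ, 0 ≤ ν ∧ ∫ z, db φ z * h z = -(c * ν))
    {φ : ℂ → ℝ} (f1 : ContDiff ℝ 1 φ) (f2 : HasCompactSupport φ) (f0 : ∀ z, 0 ≤ φ z) {n : ℕ}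
    (hn : ∀ z ∈ tsupport φ, tsupport (fun y => rho n (z - y)) ⊆ W) {η : ℝ} (hη : 0 < η) :
    (e * ∫ z, db φ z * log (cv n h z + η)).re ≤ 0 := by
  have g1 : ∀ z, 0 ≤ (cv n h z).re := cv_pos ih reCLM h1 n
  have g2 : ∀ z, 0 ≤ (e * c).re * (cv n h z).re + (e * c).im * (cv n h z).im :=
    cv_pos ih ((e * c).re • reCLM + (e * c).im • imCLM) h2 n
  have sl : ∀ z, cv n h z + η ∈ slitPlane := fun z => .inl (by simpa using add_pos_of_nonneg_of_pos (g1 z) hη)
  have cd := cv_diff ih.locallyIntegrable n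
  have c1 : ∀ z, ContDiffAt ℝ 1 (fun z => log (cv n h z + η)) z := fun z =>
    ContDiffAt.comp (g := log) (f := fun z => cv n h z + η) z
      ((contDiffAt_log (sl z)).restrict_scalars ℝ) (cd.add contDiff_const).contDiffAt
  have fd : ∀ z v, fderiv ℝ (fun z => log (cv n h z + η)) z v = (cv n h z + η)⁻¹ * fderiv ℝ (cv n h) z v :=
    fun z v => by
    have := ((hasStrictDerivAt_log (sl z)).hasDerivAt.hasFDerivAt.restrictScalars ℝ).comp z
      ((cd.differentiable one_ne_zero z).hasFDerivAt.add_const (η : ℂ))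
    rw [show (fun z => log (cv n h z + η)) = log ∘ fun z => cv n h z + η from rfl, this.fderiv]
    simp [mul_comm]
  rw [(ibp f1 f2 fun z _ => c1 z).2, mul_neg, neg_re, neg_nonpos, ← integral_const_mul]
  have i : Integrable fun z => e * φ z • (fderiv ℝ (fun z => log (cv n h z + η)) z 1 +
      I * fderiv ℝ (fun z => log (cv n h z + η)) z I) :=
    (integ f1.continuous f2 fun x _ => (((c1 x).continuousAt_fderiv one_ne_zero).clm_apply
      continuousAt_const).add (continuousAt_const.mul (((c1 x).continuousAt_fderiv one_ne_zero).clm_apply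
      continuousAt_const))).const_mul e
  rw [← reCLM_apply, ← reCLM.integral_comp_comm i]
  refine integral_nonneg fun z => ?_
  by_cases k : z ∈ tsupport φ
  · obtain ⟨ν, n0, hν⟩ := H _ (t1 n z) (t2 n z) (fun y => rho0 _ _) (hn z k)
    have e1 := cv_db ih n z
    rw [hν, neg_neg] at e1
    have e2 : e * φ z • (fderiv ℝ (fun z => log (cv n h z + η)) z 1 +
        I * fderiv ℝ (fun z => log (cv n h z + η)) z I) = (φ z * ν : ℝ) * (e * c * (cv n h z + η)⁻¹) := by
      rw [fd, fd, real_smul]; push_cast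
      linear_combination e * φ z * (cv n h z + η)⁻¹ * e1
    simp only [Pi.zero_apply, reCLM_apply]
    rw [e2, re_ofReal_mul]
    refine mul_nonneg (mul_nonneg (f0 z) n0) ?_
    rw [← div_eq_mul_inv, div_re, ← add_div]
    refine div_nonneg ?_ (normSq_nonneg _)
    simp only [add_re, ofReal_re, add_im, ofReal_im, add_zero]
    nlinarith [g2 z, mul_nonneg h3 hη.le]
  · simp [image_eq_zero_of_notMem_tsupport k]

theorem mono {h : ℂ → ℂ} (mh : Measurable h) (ih : Integrable h) {W : Set ℂ} (hW : IsOpen W) {c v : ℂ}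
    {δ M : ℝ} (hδ : 0 < δ) (hv : M * |(starRingEnd ℂ v * c).im| ≤ δ * (starRingEnd ℂ v * c).re)
    (hM : 0 ≤ M) (hh : ∀ z, h z = 0 ∨ (δ ≤ (h z).re ∧ ‖h z‖ ≤ M))
    (H : ∀ φ : ℂ → ℝ, ContDiff ℝ 1 φ → HasCompactSupport φ → (∀ z, 0 ≤ φ z) → tsupport φ ⊆ W →
      ∃ ν : ℝ, 0 ≤ ν ∧ ∫ z, db φ z * h z = -(c * ν))
    {φ : ℂ → ℝ} (f1 : ContDiff ℝ 1 φ) (f2 : HasCompactSupport φ) (f0 : ∀ z, 0 ≤ φ z) (f3 : tsupport φ ⊆ W) :
    0 ≤ ∫ z, fderiv ℝ φ z v • {z | h z = 0}.indicator (fun _ => (1:ℝ)) z := by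
  obtain ⟨e, he⟩ : ∃ e, e = starRingEnd ℂ v := ⟨_, rfl⟩
  rw [← he] at hv
  have h3 : 0 ≤ (e * c).re := nonneg_of_mul_nonneg_right (le_trans (by positivity) hv) hδ
  have h1 : ∀ z, 0 ≤ (h z).re := fun z => (hh z).elim (fun k => by simp [k]) fun k => hδ.le.trans k.1
  have h2 : ∀ z, 0 ≤ (e * c).re * (h z).re + (e * c).im * (h z).im := fun z =>
    (hh z).elim (fun k => by simp [k]) fun k => by
      have a := (abs_im_le_norm (h z)).trans k.2
      have b : |(e * c).im * (h z).im| ≤ |(e * c).im| * M := by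
        rw [abs_mul]; exact mul_le_mul_of_nonneg_left a (abs_nonneg _)
      nlinarith [neg_abs_le ((e * c).im * (h z).im), mul_le_mul_of_nonneg_left k.1 h3]
  have h4 : ∀ z, ‖h z‖ ≤ M := fun z => (hh z).elim (fun k => by simpa [k]) fun k => k.2
  have id := (db_cont f1).integrable_of_hasCompactSupport (μ := volume) (db_cpt f2)
  have s2 : ∀ η : ℝ, 0 < η → (e * ∫ z, db φ z * log (h z + η)).re ≤ 0 := fun η hη => by
    obtain ⟨B, hB⟩ := log_bd η (3 * M + η) hη
    have := tendsto_integral_of_dominated_convergence (μ := volume)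
      (F := fun n z => db φ z * log (cv n h z + η)) (f := fun z => db φ z * log (h z + η))
      (fun z => ‖db φ z‖ * B) (fun n => Measurable.aestronglyMeasurable ((db_cont f1).measurable.mul
        (measurable_log.comp ((cv_diff ih.locallyIntegrable n).continuous.measurable.add_const _))))
      (id.norm.mul_const B) (fun n => .of_forall fun z => by
        rw [norm_mul]
        refine mul_le_mul_of_nonneg_left (hB _ (by simpa using cv_pos ih reCLM h1 n z) ?_) (norm_nonneg _)
        have a := (bb n).dist_normed_convolution_le (μ := volume) (x₀ := z) (ε := 2 * M) ih.1 fun y _ =>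
          (dist_le_norm_add_norm _ _).trans (by linarith [h4 y, h4 z])
        have b : ‖cv n h z‖ ≤ 3 * M := by
          have := norm_le_norm_add_norm_sub' (cv n h z) (h z)
          rw [dist_eq_norm] at a
          change ‖cv n h z - h z‖ ≤ _ at a
          linarith [h4 z]
        refine (norm_add_le _ _).trans ?_
        rw [norm_real, Real.norm_of_nonneg hη.le]; linarith)
      ((cv_ae ih.locallyIntegrable).mono fun z hz => ((continuousAt_clog (x := h z + η)
        (.inl (by simpa using add_pos_of_nonneg_of_pos (h1 z) hη))).tendsto.comp (hz.add_const _)).const_mul _)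
    exact le_of_tendsto ((continuous_re.tendsto _).comp (this.const_mul e))
      ((t4 f2 hW f3).mono fun n hn => step1 ih h1 h2 h3 H f1 f2 f0 hn hη)
  obtain ⟨B, hB⟩ := log_bd δ (M + 1) hδ
  have mE : MeasurableSet {z | h z = 0} := mh (measurableSet_singleton 0)
  have bd : ∀ (m : ℕ) z, h z ≠ 0 → ‖log (h z + Real.exp (-(m + 1 : ℝ)))‖ ≤ |B| := fun m z k => by
    have k := (hh z).resolve_left k
    have a := Real.exp_pos (-(m + 1 : ℝ))
    have b : Real.exp (-(m + 1 : ℝ)) ≤ 1 := Real.exp_le_one_iff.2 (by have := m.cast_nonneg (α := ℝ); linarith)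
    refine (hB _ (by rw [add_re, ofReal_re]; linarith) ((norm_add_le _ _).trans ?_)).trans (le_abs_self _)
    rw [norm_real, Real.norm_of_nonneg a.le]; linarith
  have z0 : ∀ (m : ℕ) z, h z = 0 → (1 / (m + 1) : ℝ) * log (h z + Real.exp (-(m + 1 : ℝ))) = -1 := fun m z k => by
    rw [k, zero_add, ← ofReal_log (Real.exp_pos _).le, Real.log_exp]
    have : (m + 1 : ℂ) ≠ 0 := by exact_mod_cast m.succ_ne_zero
    push_cast; field_simp
  have := tendsto_integral_of_dominated_convergence (μ := volume)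
    (F := fun (m : ℕ) z => db φ z * ((1 / (m + 1) : ℝ) * log (h z + Real.exp (-(m + 1 : ℝ)))))
    (f := fun z => db φ z * -({z | h z = 0}.indicator (fun _ => (1:ℝ)) z : ℝ))
    (fun z => ‖db φ z‖ * (1 + |B|)) (fun n => Measurable.aestronglyMeasurable ((db_cont f1).measurable.mul
      ((measurable_log.comp (mh.add_const _)).const_mul _)))
    (id.norm.mul_const _) (fun m => .of_forall fun z => by
      rw [norm_mul]
      refine mul_le_mul_of_nonneg_left ?_ (norm_nonneg _)
      by_cases k : h z = 0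
      · rw [z0 m z k]; simp
      · rw [norm_mul, norm_real, Real.norm_of_nonneg (rp m).le]
        have : (1 / (m + 1) : ℝ) ≤ 1 := div_le_self zero_le_one (by simp)
        nlinarith [bd m z k, norm_nonneg (log (h z + Real.exp (-(m + 1 : ℝ)))), rp m])
    (.of_forall fun z => Tendsto.const_mul _ (by
      by_cases k : h z = 0
      · simp only [z0 _ z k]
        rw [indicator_of_mem (show z ∈ {z | h z = 0} from k)]
        simp
      · rw [indicator_of_notMem (show z ∉ {z | h z = 0} from k), ofReal_zero, neg_zero]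
        refine squeeze_zero_norm (a := fun m : ℕ => (1 / (m + 1) : ℝ) * |B|) (fun m => ?_) ?_
        · rw [norm_mul, norm_real, Real.norm_of_nonneg (rp m).le]
          exact mul_le_mul_of_nonneg_left (bd m z k) (rp m).le
        · simpa using (tendsto_one_div_add_atTop_nhds_zero_nat (𝕜 := ℝ)).mul_const |B|))
  have lim := le_of_tendsto' ((continuous_re.tendsto _).comp (this.const_mul e)) (b := 0) fun m => by
    have := s2 _ (Real.exp_pos (-(m + 1 : ℝ)))
    simp only [Function.comp, mul_left_comm (db φ _), integral_const_mul]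
    rw [mul_left_comm, re_ofReal_mul]
    exact mul_nonpos_of_nonneg_of_nonpos (rp m).le this
  have i2 : Integrable fun z => e * (db φ z * -({z | h z = 0}.indicator (fun _ => (1:ℝ)) z : ℝ)) :=
    (id.mul_bdd (c := 1) (Measurable.aestronglyMeasurable
      (measurable_ofReal.comp (measurable_const.indicator mE)).neg) (.of_forall fun z => by
        simp only [Pi.neg_apply, Function.comp]
        by_cases k : z ∈ {z | h z = 0}
        · rw [indicator_of_mem k]; simp
        · rw [indicator_of_notMem k]; simp)).const_mul e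
  rw [← integral_const_mul, ← reCLM_apply, ← reCLM.integral_comp_comm i2, ← neg_nonneg, ← integral_neg] at lim
  refine lim.trans (le_of_eq ?_)
  congr 1; ext z
  rw [lin (fderiv ℝ φ z) v, he]
  simp [db]
  ring

end Pool.Agent.H.MP_46692b_an
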