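import Pool.Agent.H.MP_46692b_an.B

set_option autoImplicit false
open MeasureTheory Filter Topology Complex Set Metric
open scoped Real Convolution

namespace Pool.Agent.H.MP_46692b_an

theorem anti_null {B V : Set ℂ} (mB : MeasurableSet B) (bB : Bornology.IsBounded B) {v : ℂ}
    (hV : ∀ t : ℝ, 0 < t → t • v ∈ V) (h : ∀ x ∈ B, ∀ y ∈ B, y - x ∉ V) : volume B = 0 := by
  by_contra hne
  obtain ⟨R, hR⟩ := bB.subset_closedBall 0
  obtain ⟨T, hT⟩ : ∃ T : ℕ → Set ℂ, T = fun n : ℕ => (fun z => z + (1 / (n + 1) : ℝ) • v) ⁻¹' B := ⟨_, rfl⟩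
  have d : ∀ n m : ℕ, n < m → Disjoint (T n) (T m) := fun n m hnm => by
    rw [hT, Set.disjoint_left]
    intro z h1 h2
    refine h _ h2 _ h1 ?_
    rw [add_sub_add_left_eq_sub, ← sub_smul]
    refine hV _ (sub_pos.2 (one_div_lt_one_div_of_lt (by positivity) ?_))
    have : (n : ℝ) < m := by exact_mod_cast hnm
    linarith
  have e := measure_iUnion (μ := volume) (f := T)
    (fun n m hnm => (lt_or_gt_of_ne hnm).elim (d n m) fun k => (d m n k).symm)
    (fun n => by rw [hT]; exact measurable_add_const _ mB)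
  have s : ⋃ n, T n ⊆ closedBall 0 (R + ‖v‖) := iUnion_subset fun n z hz => by
    rw [hT] at hz
    have a := mem_closedBall_zero_iff.1 (hR hz)
    have b := norm_sub_le (z + (1 / (n + 1) : ℝ) • v) ((1 / (n + 1) : ℝ) • v)
    rw [add_sub_cancel_right, norm_smul, Real.norm_of_nonneg (rp n).le] at b
    have c : (1 / (n + 1) : ℝ) ≤ 1 := div_le_self zero_le_one (by simp)
    rw [mem_closedBall_zero_iff]
    nlinarith [norm_nonneg v]
  have := (measure_mono s).trans_lt (measure_closedBall_lt_top (μ := volume))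
  rw [e] at this
  simp only [hT, measure_preimage_add_right] at this
  rw [ENNReal.tsum_const_eq_top_of_ne_zero hne] at this
  exact lt_irrefl _ this

theorem split {E V : Set ℂ} (mE : MeasurableSet E) {p : ℂ} {r : ℝ} (oV : IsOpen V) {v : ℂ}
    (hV : ∀ t : ℝ, 0 < t → t • v ∈ V)
    (H : ∀ φ : ℂ → ℝ, ContDiff ℝ 1 φ → HasCompactSupport φ → (∀ z, 0 ≤ φ z) → tsupport φ ⊆ ball p r →
      ∀ v ∈ V, 0 ≤ ∫ z, fderiv ℝ φ z v • E.indicator (fun _ => (1:ℝ)) z) :
    ∀ᵐ x, x ∈ ball p r → ∃ N ∈ 𝓝 x, (∀ᵐ z, z ∈ N → z ∈ E) ∨ (∀ᵐ z, z ∈ N → z ∉ E) := by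
  obtain ⟨χ, hχ⟩ : ∃ χ, χ = E.indicator (fun _ => (1:ℝ)) := ⟨_, rfl⟩
  rw [← hχ] at H
  have iχ : LocallyIntegrable χ := hχ ▸ (locallyIntegrable_const 1).indicator mE
  obtain ⟨L, hL⟩ : ∃ L, L = {z | Tendsto (fun n => cv n χ z) atTop (𝓝 (χ z))} := ⟨_, rfl⟩
  have aL : ∀ᵐ z, z ∈ L := hL ▸ cv_ae iχ
  have m : ∀ a ∈ ball p r, ∀ b ∈ ball p r, b - a ∈ V → a ∈ L → b ∈ L → χ b ≤ χ a := fun a ha b hb hv la lb => by
    rw [hL] at la lb
    refine le_of_tendsto_of_tendsto lb la ?_
    have sg : segment ℝ a b ⊆ ball p r := (convex_ball p r).segment_subset ha hb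
    have cs : IsCompact (segment ℝ a b) := by
      rw [segment_eq_image']; exact isCompact_Icc.image (by fun_prop)
    filter_upwards [t4 cs isOpen_ball sg] with n hn
    have d : ∀ t : ℝ, HasDerivAt (fun t : ℝ => cv n χ (a + t • (b - a)))
        (fderiv ℝ (cv n χ) (a + t • (b - a)) (b - a)) t := fun t => by
      have := ((cv_diff iχ n).differentiable one_ne_zero (a + t • (b - a))).hasFDerivAt.comp_hasDerivAt t
        (((hasDerivAt_id t).smul_const (b - a)).const_add a)
      rw [one_smul] at this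
      exact this
    have := antitoneOn_of_deriv_nonpos (convex_Icc (0:ℝ) 1) (f := fun t : ℝ => cv n χ (a + t • (b - a)))
      (fun t _ => (d t).continuousAt.continuousWithinAt) (fun t _ => (d t).differentiableAt.differentiableWithinAt)
      (fun t ht => by
        rw [(d t).deriv, cv, cderiv (rho1 n) (rho2 n) iχ, neg_nonpos]
        refine H _ (t1 n _) (t2 n _) (fun y => rho0 _ _) (hn _ ?_) _ hv
        rw [segment_eq_image']
        exact ⟨t, interior_subset ht, rfl⟩)
      (left_mem_Icc.2 zero_le_one) (right_mem_Icc.2 zero_le_one) zero_le_one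
    simpa using this
  have nB := anti_null (B := ball p r ∩ (closure (L ∩ E) ∩ closure (L \ E))) (V := V)
    (measurableSet_ball.inter (isClosed_closure.inter isClosed_closure).measurableSet)
    (isBounded_ball.subset inter_subset_left) hV fun x hx y hy hv => by
      have o : IsOpen {q : ℂ × ℂ | q.1 ∈ ball p r ∧ q.2 ∈ ball p r ∧ q.2 - q.1 ∈ V} :=
        (isOpen_ball.preimage continuous_fst).inter ((isOpen_ball.preimage continuous_snd).inter
          (oV.preimage (continuous_snd.sub continuous_fst)))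
      have c : (x, y) ∈ closure ((L \ E) ×ˢ (L ∩ E)) := by
        rw [closure_prod_eq]; exact ⟨hx.2.2, hy.2.1⟩
      obtain ⟨q, ⟨q1, q2, q3⟩, q4, q5⟩ := mem_closure_iff.1 c _ o ⟨hx.1, hy.1, hv⟩
      have := m _ q1 _ q2 q3 q4.1 q5.1
      rw [hχ, indicator_of_mem q5.2, indicator_of_notMem q4.2] at this
      linarith
  filter_upwards [compl_mem_ae_iff.2 nB] with x hx hb
  by_cases k : x ∈ closure (L ∩ E)
  · have k2 : x ∉ closure (L \ E) := fun j => hx ⟨hb, k, j⟩
    refine ⟨(closure (L \ E))ᶜ, isClosed_closure.isOpen_compl.mem_nhds k2, .inl (aL.mono fun z hz j => ?_)⟩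
    by_contra i
    exact j (subset_closure ⟨hz, i⟩)
  · exact ⟨(closure (L ∩ E))ᶜ, isClosed_closure.isOpen_compl.mem_nhds k,
      .inr (aL.mono fun z hz j i => j (subset_closure ⟨hz, i⟩))⟩

theorem one (μ : Measure ℂ) [IsFiniteMeasure μ] {N : Set ℂ} {x : ℂ} (hN : N ∈ 𝓝 x) {f : ℂ → ℂ}
    (hf : ∀ z ∈ N, AnalyticAt ℂ f z) (h : ∀ᵐ z, z ∈ N → CT μ z = f z) : x ∉ μ.support := by
  obtain ⟨r, r0, hr⟩ := nhds_basis_closedBall.mem_iff.1 hN
  obtain ⟨b, hb⟩ : ∃ b : ContDiffBump x, b = ⟨r / 2, r, half_pos r0, half_lt_self r0⟩ := ⟨_, rfl⟩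
  have s : tsupport b ⊆ N := by rw [b.tsupport_eq, hb]; exact hr
  have a1 := (weak μ (b.contDiff (n := 1)) b.hasCompactSupport).2
  have a2 := (holo (b.contDiff (n := 1)) b.hasCompactSupport fun z hz => hf z (s hz)).2
  rw [integral_congr_ae (g := fun z => db b z * f z) (h.mono fun z hz => by
    by_cases k : z ∈ tsupport b
    · simp only [hz (s k)]
    · simp only [db_zero k, zero_mul]), a2, eq_comm, neg_eq_zero, ofReal_eq_zero] at a1
  have a3 : ∫ ζ, b ζ ∂μ = 0 := (mul_eq_zero.1 a1).resolve_left (by positivity)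
  rw [integral_eq_zero_iff_of_nonneg (fun z => b.nonneg) (b.continuous.integrable_of_hasCompactSupport
    b.hasCompactSupport)] at a3
  refine Measure.notMem_support_iff_exists.2 ⟨ball x b.rIn, ball_mem_nhds _ b.rIn_pos,
    measure_mono_null (fun z hz => ?_) (ae_iff.1 a3)⟩
  intro j
  have := b.one_of_mem_closedBall (ball_subset_closedBall hz)
  rw [show b z = 0 from j] at this
  exact zero_ne_one this

theorem ind (μ : Measure ℂ) [IsFiniteMeasure μ] {ι : Type} (f : ι → ℂ → ℂ) (k : ℕ) :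
    ∀ s : Finset ι, s.card = k → ∀ U : Set ℂ, IsOpen U → (∀ i ∈ s, ∀ z ∈ U, AnalyticAt ℂ (f i) z) →
      (∀ z ∈ U, ∀ i ∈ s, ∀ j ∈ s, i ≠ j → f i z ≠ f j z) → (∀ᵐ z, z ∈ U → ∃ i ∈ s, CT μ z = f i z) →
      volume (μ.support ∩ U) = 0 := by
  classical
  induction k with
  | zero =>
    intro s hs U _ _ _ h
    rw [Finset.card_eq_zero.1 hs] at h
    refine measure_mono_null (fun z hz => ?_) (ae_iff.1 h)
    intro j
    simpa using j hz.2
  | succ k ih =>
    intro s hs U oU an ne h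
    refine measure_null_of_locally_null _ fun p hp => ?_
    obtain ⟨i, hi, mx⟩ := s.exists_max_image (fun i => ‖f i p‖) (Finset.card_pos.1 (by omega))
    obtain ⟨c, c0, hc⟩ : ∃ c : ℂ, c ≠ 0 ∧ ∀ j ∈ s.erase i, 0 < (c * (f j p - f i p)).re := by
      have key : ∀ j ∈ s.erase i, 0 < (-starRingEnd ℂ (f i p) * (f j p - f i p)).re := fun j hj => by
        have a := mx j (Finset.mem_of_mem_erase hj)
        have b := normSq_pos.2 (sub_ne_zero.2 (ne p hp.2 j (Finset.mem_of_mem_erase hj) i hi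
          (Finset.ne_of_mem_erase hj)))
        rw [← sq_le_sq₀ (norm_nonneg _) (norm_nonneg _), ← normSq_eq_norm_sq, ← normSq_eq_norm_sq] at a
        simp only [normSq_apply, sub_re, sub_im, mul_re, neg_re, neg_im, conj_re, conj_im] at a b ⊢
        nlinarith
      by_cases e : f i p = 0
      · exact ⟨1, one_ne_zero, fun j hj => by simpa [e] using key j hj⟩
      · exact ⟨_, neg_ne_zero.2 ((map_ne_zero _).2 e), key⟩
    obtain ⟨δ, d0, M, M0, ev⟩ : ∃ δ : ℝ, 0 < δ ∧ ∃ M : ℝ, 0 ≤ M ∧ ∀ᶠ z in 𝓝 p, ∀ j ∈ s.erase i,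
        δ ≤ (c * (f j z - f i z)).re ∧ ‖c * (f j z - f i z)‖ ≤ M := by
      have a : ∀ᶠ δ : ℝ in 𝓝[>] 0, ∀ j ∈ s.erase i, δ < (c * (f j p - f i p)).re :=
        (Finset.eventually_all _).2 fun j hj => nhdsWithin_le_nhds (Iio_mem_nhds (hc j hj))
      have b : ∀ᶠ M : ℝ in atTop, ∀ j ∈ s.erase i, ‖c * (f j p - f i p)‖ < M :=
        (Finset.eventually_all _).2 fun j hj => eventually_gt_atTop _
      obtain ⟨δ, a1, a2⟩ := (a.and self_mem_nhdsWithin).exists
      obtain ⟨M, b1, b2⟩ := (b.and (eventually_ge_atTop 0)).exists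
      refine ⟨δ, a2, M, b2, (Finset.eventually_all _).2 fun j hj => ?_⟩
      have t : ContinuousAt (fun z => c * (f j z - f i z)) p := continuousAt_const.mul
        ((an j (Finset.mem_of_mem_erase hj) p hp.2).continuousAt.sub (an i hi p hp.2).continuousAt)
      exact ((continuous_re.continuousAt.comp t).eventually (le_mem_nhds (a1 j hj))).and
        (t.norm.eventually (ge_mem_nhds (b1 j hj)))
    obtain ⟨r, r0, hr⟩ := Metric.mem_nhds_iff.1 (inter_mem ev (oU.mem_nhds hp.2))
    obtain ⟨g, hg⟩ : ∃ g : ℂ → ℂ, g = fun z => c * (CT μ z - (ball p r).indicator (f i) z) := ⟨_, rfl⟩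
    have mg : Measurable g := by
      rw [hg]
      exact ((CT_meas μ).sub (ContinuousOn.measurable_piecewise (g := fun _ => 0)
        (fun z hz => (an i hi z (hr hz).2).continuousAt.continuousWithinAt) continuousOn_const
        measurableSet_ball)).const_mul c
    obtain ⟨S, hS⟩ : ∃ S, S = ball p r ∩ {z | δ ≤ (g z).re ∧ ‖g z‖ ≤ M} := ⟨_, rfl⟩
    have mS : MeasurableSet S := hS ▸ measurableSet_ball.inter
      ((measurableSet_le measurable_const (measurable_re.comp mg)).inter
        (measurableSet_le mg.norm measurable_const))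
    have hh : ∀ z, S.indicator g z = 0 ∨ (δ ≤ (S.indicator g z).re ∧ ‖S.indicator g z‖ ≤ M) := fun z => by
      by_cases e : z ∈ S
      · rw [indicator_of_mem e]; rw [hS] at e; exact .inr e.2
      · exact .inl (indicator_of_notMem e _)
    have ae : ∀ᵐ z, z ∈ ball p r → S.indicator g z = c * (CT μ z - f i z) := h.mono fun z hz j => by
      obtain ⟨l, hl, e⟩ := hz (hr j).2
      have e1 : g z = c * (CT μ z - f i z) := by rw [hg]; simp only [indicator_of_mem j]
      by_cases q : l = i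
      · have : g z = 0 := by rw [e1, e, q, sub_self, mul_zero]
        rw [← e1, this, indicator_apply_eq_zero.2 fun _ => this]
      · rw [← e1, indicator_of_mem]
        rw [hS]
        refine ⟨j, ?_⟩
        change δ ≤ (g z).re ∧ ‖g z‖ ≤ M
        rw [e1, e]
        exact (hr j).1 l (Finset.mem_erase.2 ⟨q, hl⟩)
    have iS : Integrable (S.indicator g) := (integrable_indicator_iff mS).2
      (Measure.integrableOn_of_bounded (M := M) ((measure_mono (hS ▸ inter_subset_left)).trans_lt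
        (measure_ball_lt_top (x := p) (r := r))).ne mg.aestronglyMeasurable
        ((ae_restrict_iff' mS).2 (.of_forall fun z hz => by rw [hS] at hz; exact hz.2.2)))
    have sp := split (E := {z | S.indicator g z = 0}) ((mg.indicator mS) (measurableSet_singleton 0))
      (p := p) (r := r) (V := {v | M * |(starRingEnd ℂ v * c).im| < δ * (starRingEnd ℂ v * c).re})
      (isOpen_lt (by fun_prop) (by fun_prop)) (v := c) (fun t ht => by
        have := normSq_pos.2 c0
        change M * |_| < δ * _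
        rw [real_smul, map_mul, conj_ofReal, mul_assoc, ← normSq_eq_conj_mul_self, ← ofReal_mul, ofReal_im,
          ofReal_re, abs_zero, mul_zero]
        positivity)
      fun φ f1 f2 f0 f3 v hv => mono (mg.indicator mS) iS isOpen_ball d0 (le_of_lt hv) M0 hh
        (fun ψ g1 g2 g0 g3 => ⟨2 * π * ∫ ζ, ψ ζ ∂μ, mul_nonneg (by positivity) (integral_nonneg g0), by
          obtain ⟨a1, a2⟩ := weak μ g1 g2
          obtain ⟨b1, b2⟩ := holo g1 g2 fun z hz => an i hi z (hr (g3 hz)).2
          rw [integral_congr_ae (g := fun z => c * (db ψ z * CT μ z - db ψ z * f i z)) (ae.mono fun z hz => by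
            by_cases q : z ∈ tsupport ψ
            · simp only [hz (g3 q)]; ring
            · simp [db_zero q]), integral_const_mul, integral_sub a1 b1, a2, b2]
          ring⟩) f1 f2 f0 f3
    refine ⟨μ.support ∩ ball p r, mem_of_superset (inter_mem_nhdsWithin _ (ball_mem_nhds p r0))
      fun z hz => ⟨hz.1.1, hz.2⟩, ?_⟩
    obtain ⟨B, hB⟩ : ∃ B, B = {x | ¬ (x ∈ ball p r → ∃ N ∈ 𝓝 x, (∀ᵐ z, z ∈ N → z ∈ {z | S.indicator g z = 0}) ∨
      (∀ᵐ z, z ∈ N → z ∉ {z | S.indicator g z = 0}))} := ⟨_, rfl⟩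
    have nB : volume B = 0 := hB ▸ sp
    rw [← measure_sdiff_null nB]
    refine measure_null_of_locally_null _ fun x hx => ?_
    have hx2 := hx.2
    rw [hB, mem_ofPred_eq, not_not] at hx2
    obtain ⟨N, hN, q | q⟩ := hx2 hx.1.2
    · refine (one μ (inter_mem hN (isOpen_ball.mem_nhds hx.1.2)) (f := f i) (fun z hz => an i hi z (hr hz.2).2)
        ?_ hx.1.1).elim
      filter_upwards [q, ae] with z q1 q2 hz
      have := (q2 hz.2).symm.trans (q1 hz.1)
      exact sub_eq_zero.1 ((mul_eq_zero.1 this).resolve_left c0)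
    · refine ⟨μ.support ∩ (interior N ∩ ball p r), mem_of_superset (inter_mem_nhdsWithin _
        (interior_mem_nhds.2 hN)) fun z hz => ⟨hz.1.1.1, hz.2, hz.1.1.2⟩,
        ih (s.erase i) (by rw [Finset.card_erase_of_mem hi]; omega) _ (isOpen_interior.inter isOpen_ball)
          (fun j hj z hz => an j (Finset.mem_of_mem_erase hj) z (hr hz.2).2)
          (fun z hz j hj l hl => ne z (hr hz.2).2 j (Finset.mem_of_mem_erase hj) l (Finset.mem_of_mem_erase hl)) ?_⟩
      filter_upwards [q, ae, h] with z q1 q2 q3 hz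
      obtain ⟨l, hl, e⟩ := q3 (hr hz.2).2
      refine ⟨l, Finset.mem_erase.2 ⟨fun j => q1 (interior_subset hz.1) ?_, hl⟩, e⟩
      change S.indicator g z = 0
      rw [q2 hz.2, e, j, sub_self, mul_zero]

end Pool.Agent.H.MP_46692b_an
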