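import Pool.Agent.H.MP_46692b_an.C

set_option autoImplicit false
open MeasureTheory Filter Topology Complex Set Metric Polynomial
open scoped Real Polynomial.Bivariate

namespace Pool.Agent.H.MP_46692b_an

theorem sepr {Q : ℂ[X][Y]} (hQ : Irreducible Q) (h0 : Q.natDegree ≠ 0) :
    ∃ D : ℂ[X], D ≠ 0 ∧ ∃ A B : ℂ[X][Y], Q * A + derivative Q * B = C D := by
  obtain ⟨A, B, -, -, e⟩ := exists_mul_add_mul_eq_C_resultant Q (derivative Q) le_rfl le_rfl (.inl h0)
  refine ⟨_, fun k => ?_, A, B, e⟩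
  have inj := IsFractionRing.injective ℂ[X] (FractionRing ℂ[X])
  have i := ((hQ.isPrimitive h0).irreducible_iff_irreducible_map_fraction_map (K := FractionRing ℂ[X])).1 hQ
  have s := resultant_ne_zero _ _ i.separable
  rw [derivative_map, natDegree_map_eq_of_injective inj, natDegree_map_eq_of_injective inj,
    resultant_map_map, k, map_zero] at s
  exact s rfl

theorem smooth (Q : ℂ[X][Y]) : ContDiff ℂ ⊤ fun u : ℂ × ℂ => Q.evalEval u.1 u.2 := by
  induction Q using Polynomial.induction_on' with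
  | add p q hp hq => simp only [evalEval_add]; exact hp.add hq
  | monomial n a =>
    simp only [← C_mul_X_pow_eq_monomial, evalEval_mul, evalEval_C, evalEval_pow, evalEval_X]
    exact ((AnalyticOnNhd.contDiff (fun z _ => a.differentiable.analyticAt z)).comp contDiff_fst).mul (contDiff_snd.pow n)

theorem branch (Q : ℂ[X][Y]) {p w : ℂ} (h : Q.evalEval p w = 0) (h' : (derivative Q).evalEval p w ≠ 0) :
    ∃ f : ℂ → ℂ, f p = w ∧ AnalyticAt ℂ f p ∧ ∀ᶠ z in 𝓝 p, Q.evalEval z (f z) = 0 := by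
  have cd : ContDiffAt ℂ ⊤ (fun u : ℂ × ℂ => Q.evalEval u.1 u.2) (p, w) := (smooth Q).contDiffAt
  have d1 : HasDerivAt (fun w => Q.evalEval p w) ((derivative Q).evalEval p w) w := by
    simp only [← map_evalRingHom_eval]
    rw [← derivative_map]
    exact Polynomial.hasDerivAt _ w
  have d2 := (cd.differentiableAt WithTop.top_ne_zero).hasFDerivAt.comp w (hasFDerivAt_prodMk_right p w)
  have e := d2.unique d1.hasFDerivAt
  have inv : (fderiv ℂ (fun u : ℂ × ℂ => Q.evalEval u.1 u.2) (p, w) ∘L .inr ℂ ℂ ℂ).IsInvertible := by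
    rw [e]
    exact ⟨ContinuousLinearEquiv.unitsEquivAut ℂ (Units.mk0 _ h'), by ext; simp⟩
  refine ⟨cd.implicitFunction WithTop.top_ne_zero inv, cd.implicitFunction_apply_self _ inv,
    (cd.contDiffAt_implicitFunction _ inv).analyticAt, ?_⟩
  simpa [h] using cd.eventually_apply_implicitFunction WithTop.top_ne_zero inv

theorem loc {Q A B : ℂ[X][Y]} {D : ℂ[X]} (e : Q * A + derivative Q * B = C D) {p : ℂ} (h1 : D.eval p ≠ 0)
    (h2 : Q.leadingCoeff.eval p ≠ 0) : ∃ (s : Finset ℂ) (f : ℂ → ℂ → ℂ), ∀ᶠ z in 𝓝 p,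
      (∀ i ∈ s, AnalyticAt ℂ (f i) z) ∧ (∀ i ∈ s, ∀ j ∈ s, i ≠ j → f i z ≠ f j z) ∧
        ∀ w, Q.evalEval z w = 0 → ∃ i ∈ s, w = f i z := by
  classical
  have ns : ∀ w, Q.evalEval p w = 0 → (derivative Q).evalEval p w ≠ 0 := fun w a b => by
    have := congrArg (evalEval p w) e
    rw [evalEval_add, evalEval_mul, evalEval_mul, a, b, evalEval_C] at this
    exact h1 (by simpa using this.symm)
  have ex : ∀ w, ∃ f : ℂ → ℂ, Q.evalEval p w = 0 →
      f p = w ∧ AnalyticAt ℂ f p ∧ ∀ᶠ z in 𝓝 p, Q.evalEval z (f z) = 0 := fun w => by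
    by_cases k : Q.evalEval p w = 0
    · exact (branch Q k (ns w k)).imp fun f hf _ => hf
    · exact ⟨0, fun j => (k j).elim⟩
  choose f hf using ex
  have nz : ∀ z, Q.leadingCoeff.eval z ≠ 0 → Q.map (evalRingHom z) ≠ 0 := fun z hz k =>
    hz (by simpa using congrArg (fun q => q.coeff Q.natDegree) k)
  have sp : (Q.map (evalRingHom p)).Separable := by
    refine ⟨C (D.eval p)⁻¹ * A.map (evalRingHom p), C (D.eval p)⁻¹ * B.map (evalRingHom p), ?_⟩
    have := congrArg (Polynomial.map (evalRingHom p)) e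
    rw [Polynomial.map_add, Polynomial.map_mul, Polynomial.map_mul, map_C, ← derivative_map,
      coe_evalRingHom] at this
    rw [mul_assoc, mul_assoc, ← mul_add, mul_comm (A.map _), mul_comm (B.map _), this, ← C_mul,
      inv_mul_cancel₀ h1, C_1]
  have cs : (Q.map (evalRingHom p)).roots.toFinset.card = Q.natDegree := by
    rw [Multiset.toFinset_card_of_nodup (nodup_roots sp), IsAlgClosed.card_roots_eq_natDegree,
      natDegree_map_of_leadingCoeff_ne_zero _ h2]
  have ms : ∀ w ∈ (Q.map (evalRingHom p)).roots.toFinset, Q.evalEval p w = 0 := fun w hw => by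
    rw [← map_evalRingHom_eval]
    exact (mem_roots (nz p h2)).1 (Multiset.mem_toFinset.1 hw)
  generalize (Q.map (evalRingHom p)).roots.toFinset = s at cs ms
  refine ⟨s, f, ?_⟩
  have a1 : ∀ᶠ z in 𝓝 p, ∀ i ∈ s, AnalyticAt ℂ (f i) z :=
    (Finset.eventually_all _).2 fun i hi => (hf i (ms i hi)).2.1.eventually_analyticAt
  have a2 : ∀ᶠ z in 𝓝 p, ∀ i ∈ s, ∀ j ∈ s, i ≠ j → f i z ≠ f j z :=
    (Finset.eventually_all _).2 fun i hi => (Finset.eventually_all _).2 fun j hj => by
      by_cases k : i = j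
      · exact .of_forall fun z n => (n k).elim
      · refine (((hf i (ms i hi)).2.1.continuousAt.ne_iff_eventually_ne
          (hf j (ms j hj)).2.1.continuousAt).1 ?_).mono fun z hz _ => hz
        rwa [(hf i (ms i hi)).1, (hf j (ms j hj)).1]
  have a3 : ∀ᶠ z in 𝓝 p, ∀ i ∈ s, Q.evalEval z (f i z) = 0 :=
    (Finset.eventually_all _).2 fun i hi => (hf i (ms i hi)).2.2
  have a4 : ∀ᶠ z in 𝓝 p, Q.leadingCoeff.eval z ≠ 0 := Q.leadingCoeff.continuous.continuousAt.eventually_ne h2
  filter_upwards [a1, a2, a3, a4] with z b1 b2 b3 b4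
  refine ⟨b1, b2, fun w hw => ?_⟩
  by_contra k
  have nm : w ∉ s.image fun i => f i z := fun j => by
    obtain ⟨i, hi, q⟩ := Finset.mem_image.1 j
    exact k ⟨i, hi, q.symm⟩
  have c1 : (insert w (s.image fun i => f i z)).card = Q.natDegree + 1 := by
    rw [Finset.card_insert_of_notMem nm, Finset.card_image_of_injOn fun i hi j hj q => by
      by_contra n; exact b2 i hi j hj n q, cs]
  refine nz z b4 (eq_zero_of_natDegree_lt_card_of_eval_eq_zero' _ (insert w (s.image fun i => f i z))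
    (fun x hx => ?_) (by rw [c1]; exact Nat.lt_succ_of_le natDegree_map_le))
  rw [map_evalRingHom_eval]
  rcases Finset.mem_insert.1 hx with rfl | j
  · exact hw
  · obtain ⟨i, hi, rfl⟩ := Finset.mem_image.1 j
    exact b3 i hi

theorem main (μ : Measure ℂ) [IsFiniteMeasure μ] {Q : ℂ[X][Y]} (hQ : Irreducible Q)
    (h : ∀ᵐ z, Q.evalEval z (CT μ z) = 0) : volume μ.support = 0 := by
  have fin : ∀ a : ℂ[X], a ≠ 0 → volume {z | a.eval z = 0} = 0 := fun a ha =>
    (a.roots.toFinset.finite_toSet.subset fun z hz => by simpa [ha] using hz).measure_zero _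
  by_cases h0 : Q.natDegree = 0
  · obtain ⟨a, rfl⟩ := natDegree_eq_zero.1 h0
    simp only [evalEval_C] at h
    have := (h.and (compl_mem_ae_iff.2 (fin a fun k => hQ.ne_zero (by rw [k, C_0])))).exists
    obtain ⟨z, z1, z2⟩ := this
    exact (z2 z1).elim
  obtain ⟨D, d0, A, B, e⟩ := sepr hQ h0
  rw [← measure_sdiff_null (fin _ (mul_ne_zero d0 (leadingCoeff_ne_zero.2 hQ.ne_zero)))]
  refine measure_null_of_locally_null _ fun p hp => ?_
  have := hp.2
  rw [mem_ofPred_eq, eval_mul, mul_eq_zero, not_or] at this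
  obtain ⟨s, f, ev⟩ := loc e this.1 this.2
  obtain ⟨U, hU, oU, pU⟩ := _root_.eventually_nhds_iff.1 ev
  exact ⟨μ.support ∩ U, mem_of_superset (inter_mem_nhdsWithin _ (oU.mem_nhds pU)) fun z hz => ⟨hz.1.1, hz.2⟩,
    ind μ f _ s rfl U oU (fun i hi z hz => (hU z hz).1 i hi) (fun z hz => (hU z hz).2.1)
      (h.mono fun z hz j => (hU z j).2.2 _ hz)⟩

theorem ev_eq (P : MvPolynomial (Fin 2) ℂ) (z w : ℂ) :
    ((Bivariate.equivMvPolynomial ℂ).symm P).evalEval z w = MvPolynomial.eval ![z, w] P := by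
  induction P using MvPolynomial.induction_on with
  | C a => simp [evalEval_C]
  | add p q hp hq => rw [map_add, evalEval_add, hp, hq, map_add]
  | mul_X p i hp =>
    rw [map_mul, evalEval_mul, hp, map_mul]
    fin_cases i <;> simp [evalEval_C]

end Pool.Agent.H.MP_46692b_an
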